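import Pool.Agent.KLS.Main
import Pool.Agent.KLS.GE
import Pool.Agent.WLP.Kalb
import Pool.Agent.CTC.BEQ

/-!
# The equality case for simple vertex figures and at most `d + 1` facets through every vertex
-/

set_option autoImplicit false

open scoped BigOperators RealInnerProductSpace

namespace KLE

noncomputable section

open Classical

open Pool.Agent.KST (E IsCell Cells Verts Simple Pol pt PP Gen Star VF Low LowF hh Inside)
open WLP (SepB HypB Data)

theorem kalaiE_eq {α : Type} [Fintype α] {d : ℕ} (hd : 7 ≤ d + 1) (a : α → E (d + 1))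
    (hb : Bornology.IsBounded (Pol a))
    (hns : ∀ x ∈ Pol a, x ∉ Set.extremePoints ℝ (Pol a) →
      LinearIndependent ℝ (fun i : {i : α // |⟪a i, x⟫| = 1} => a i.1))
    (hfew : ∀ x ∈ Pol a, (Finset.univ.filter (fun i => |⟪a i, x⟫| = 1)).card ≤ d + 2)
    (hN : (Cells a).card ≤ 3 ^ (d + 1)) :
    ∃ L : Finset α, L.card = d + 1 ∧
      LinearIndependent ℝ (fun i : {i : α // i ∈ L} => a i.1) ∧
      Pol a = {x | ∀ i ∈ L, |⟪a i, x⟫| ≤ 1} := by
  obtain ⟨r, g, K, H, hF, hins1⟩ := nat_capS a hb hns hfew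
  have hb' : Bornology.IsBounded (Pol (Sum.elim a g)) := by
    refine hb.subset fun x hx i => ?_
    have h := hx (Sum.inl i)
    rwa [Sum.elim_inl] at h
  have hJ : (Finset.univ.filter (fun l : α ⊕ Fin r => ∃ j, l = Sum.inr j)) =
      Finset.univ.map ⟨Sum.inr, Sum.inr_injective⟩ := by
    ext l
    rw [Finset.mem_filter, Finset.mem_map]
    constructor
    · rintro ⟨-, j, rfl⟩
      exact ⟨j, Finset.mem_univ _, rfl⟩
    · rintro ⟨j, -, rfl⟩
      exact ⟨Finset.mem_univ _, j, rfl⟩
  have hne : ∀ j : Fin r, ∃ t ∈ Cells (Sum.elim a g), t (Sum.inr j) = 1 := fun j =>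
    hF.ne (Sum.inr j) (Finset.mem_filter.2 ⟨Finset.mem_univ _, j, rfl⟩)
  have hsum : ∑ j ∈ Finset.univ.filter (fun l : α ⊕ Fin r => ∃ j, l = Sum.inr j),
      ((Cells (Sum.elim a g)).filter (fun s => s j = 1)).card =
      ∑ j : Fin r, ((Cells (Sum.elim a g)).filter (fun s => s (Sum.inr j) = 1)).card := by
    rw [hJ, Finset.sum_map]
    rfl
  have hr : (Finset.univ.filter (fun l : α ⊕ Fin r => ∃ j, l = Sum.inr j)).card = r := by
    rw [hJ, Finset.card_map, Finset.card_univ, Fintype.card_fin]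
  -- faces inside the caps
  have hin : 2 * r ≤ ∑ j : Fin r, ((Inside a g j 1).card + (Inside a g j (-1)).card) := by
    have h1 : ∀ j ∈ (Finset.univ : Finset (Fin r)),
        2 ≤ (Inside a g j 1).card + (Inside a g j (-1)).card := by
      intro j _
      obtain ⟨t, ht, htj⟩ := hne j
      have h2 := WLP.inside_posB H hb j 1 (by decide) ⟨t, ht, htj⟩
      have h3 := WLP.inside_posB H hb j (-1) (by decide)
        ⟨-t, Pool.Agent.KST.neg_mem_cells ht, by rw [Pi.neg_apply, htj]⟩
      omega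
    calc 2 * r = ∑ _j : Fin r, 2 := by
          rw [Finset.sum_const, smul_eq_mul, Finset.card_univ, Fintype.card_fin, mul_comm]
      _ ≤ ∑ j : Fin r, ((Inside a g j 1).card + (Inside a g j (-1)).card) :=
          Finset.sum_le_sum h1
  have hsplit := WLP.card_splitB H
  have hins := WLP.inside_cardB H
  have hmain := mainE_eq hd H.simple hb' (Eq.mp (congrArg (SepB (Sum.elim a g))
    (WLP.Kalb_filter _ _ _ fun _ _ => Iff.rfl)) (WLP.hypB_sep H)) hF (by
      rw [hsum, hr]
      omega)
  set L : Finset α := Finset.univ.filter (fun i => ∃ t ∈ Cells (Sum.elim a g),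
    t (Sum.inl i) = 1) with hL
  have hcard : L.card ≤ d + 1 := by
    have h1 := Pool.Agent.KST.q5_card (Sum.elim a g) Sum.inl Sum.inl_injective
      (Finset.univ.filter (fun l : α ⊕ Fin r => ∃ j, l = Sum.inr j)) (by
      intro i hi
      obtain ⟨j, hj⟩ := (Finset.mem_filter.1 hi).2
      exact absurd hj (by simp))
    exact h1.trans hmain
  have hPL : Pol a = {x | ∀ i ∈ L, |⟪a i, x⟫| ≤ 1} := by
    ext x
    constructor
    · intro hx i _
      exact hx i
    · intro hx
      refine Pool.Agent.CTC.pol_eqB H hb (by omega) hins1 x fun i hi => ?_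
      exact hx i (Finset.mem_filter.2 ⟨Finset.mem_univ _, hi⟩)
  obtain ⟨h9, h10⟩ := Pool.Agent.CTC.BEQ_basis hb hcard hPL
  exact ⟨L, h9, h10, hPL⟩

end

end KLE
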