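import Pool.Agent.KLE.SM2

/-!
# The strict inequality: base
-/

set_option autoImplicit false

namespace KLE

/-- the strict inequality -/
def GoodS (m : ℕ) (s r : ℕ → ℕ) : Prop :=
  ∑ c ∈ Finset.Icc 1 ((m - 1) / 2), (2 ^ (c + 1) - 2) * r c + 1 ≤
    ∑ q ∈ Finset.Icc 1 ((m - 1) / 2), (2 ^ q + 2 ^ (m - q)) * s q +
      if m % 2 = 0 then 2 ^ (m / 2) * s (m / 2) else 0

end KLE
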