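import Pool.Agent.KLS.Base

/-!
# The strict inequality for `m = 11`
-/

set_option autoImplicit false

namespace KLE

theorem SS_good11 (s r A B M : ℕ → ℕ) (h : Nums 11 s r A B M) (h0 : 0 < s 1) :
    GoodS 11 s r := by
  have hS := h.hS
  unfold GoodS
  simp only [show (11 - 1) / 2 = 5 from rfl, SM_sum5] at hS ⊢
  norm_num at hS ⊢
  by_cases hb : 2 * s 1 + 2 * s 2 + 2 * s 3 + 2 * s 4 + 2 * s 5 ≤ 280
  · have hA1 := h.hA1
    have hM1 := h.hM1
    have hr1 := h.hrM 1 le_rfl (by norm_num)
    have hB1 := h.hBs 1 (by norm_num) (by norm_num)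
    have hB2 := h.hBs 2 (by norm_num) (by norm_num)
    have hB3 := h.hBs 3 (by norm_num) (by norm_num)
    have hB4 := h.hBs 4 (by norm_num) (by norm_num)
    norm_num at hr1 hB1 hB2 hB3 hB4
    by_cases hc4 : r 4 ≤ 231
    ·
      by_cases hc6 : r 5 ≤ 105
      ·
        obtain ⟨X1, hx1, hy1⟩ := SM_level h 1 16 434 (by norm_num) (by norm_num)
          (by show r 2 ≤ 434; omega) (by decide +kernel)
        have hz1_1 : X1 ≤ B 1 := by
          have := hy1 1 (by norm_num) (by norm_num)
          exact Nat.le_of_mul_le_mul_right this (by decide +kernel)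
        norm_num at hx1
        obtain ⟨X2, hx2, hy2⟩ := SM_level h 2 9 326 (by norm_num) (by norm_num)
          (by show r 3 ≤ 326; omega) (by decide +kernel)
        have hz2_1 : X2 * 10 ≤ B 1 * 55 :=
          hy2 1 (by norm_num) (by norm_num)
        have hz2_2 : X2 ≤ B 2 := by
          have := hy2 2 (by norm_num) (by norm_num)
          exact Nat.le_of_mul_le_mul_right this (by decide +kernel)
        norm_num at hx2
        obtain ⟨X3, hx3, hy3⟩ := SM_level h 3 6 231 (by norm_num) (by norm_num)
          (by show r 4 ≤ 231; omega) (by decide +kernel)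
        have hz3_1 : X3 * 7 ≤ B 1 * 84 :=
          hy3 1 (by norm_num) (by norm_num)
        have hz3_2 : X3 * 28 ≤ B 2 * 84 :=
          hy3 2 (by norm_num) (by norm_num)
        have hz3_3 : X3 ≤ B 3 := by
          have := hy3 3 (by norm_num) (by norm_num)
          exact Nat.le_of_mul_le_mul_right this (by decide +kernel)
        norm_num at hx3
        obtain ⟨X4, hx4, hy4⟩ := SM_level h 4 4 105 (by norm_num) (by norm_num)
          (by show r 5 ≤ 105; omega) (by decide +kernel)
        have hz4_1 : X4 * 5 ≤ B 1 * 70 :=
          hy4 1 (by norm_num) (by norm_num)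
        have hz4_2 : X4 * 15 ≤ B 2 * 70 :=
          hy4 2 (by norm_num) (by norm_num)
        have hz4_3 : X4 * 35 ≤ B 3 * 70 :=
          hy4 3 (by norm_num) (by norm_num)
        have hz4_4 : X4 ≤ B 4 := by
          have := hy4 4 (by norm_num) (by norm_num)
          exact Nat.le_of_mul_le_mul_right this (by decide +kernel)
        norm_num at hx4
        have hg1 : 6 * r 2 ≤ 171 * B 1 := by
          linarith
        have hg2 : 28 * r 3 ≤ 225 * B 2 := by
          linarith
        have hg3 : 60 * r 4 ≤ 207 * B 2 + 96 * B 3 := by
          linarith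
        have hg4 : 62 * r 5 ≤ 96 * B 4 := by
          linarith
        rcases Nat.lt_or_ge (s 1) 2 with h1 | h1
        · have h2 : s 1 = 1 := by omega
          have h3 : A 1 * (A 1 + 1) ≤ 182 :=
            Nat.mul_le_mul (by omega : A 1 ≤ 13) (by omega : A 1 + 1 ≤ 14)
          rw [h2] at *
          linarith
        · linarith
      ·
        by_cases hc8 : r 4 ≤ 126
        ·
          obtain ⟨X1, hx1, hy1⟩ := SM_level h 1 16 434 (by norm_num) (by norm_num)
            (by show r 2 ≤ 434; omega) (by decide +kernel)
          have hz1_1 : X1 ≤ B 1 := by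
            have := hy1 1 (by norm_num) (by norm_num)
            exact Nat.le_of_mul_le_mul_right this (by decide +kernel)
          norm_num at hx1
          obtain ⟨X2, hx2, hy2⟩ := SM_level h 2 9 326 (by norm_num) (by norm_num)
            (by show r 3 ≤ 326; omega) (by decide +kernel)
          have hz2_1 : X2 * 10 ≤ B 1 * 55 :=
            hy2 1 (by norm_num) (by norm_num)
          have hz2_2 : X2 ≤ B 2 := by
            have := hy2 2 (by norm_num) (by norm_num)
            exact Nat.le_of_mul_le_mul_right this (by decide +kernel)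
          norm_num at hx2
          obtain ⟨X3, hx3, hy3⟩ := SM_level h 3 5 126 (by norm_num) (by norm_num)
            (by show r 4 ≤ 126; omega) (by decide +kernel)
          have hz3_1 : X3 * 6 ≤ B 1 * 56 :=
            hy3 1 (by norm_num) (by norm_num)
          have hz3_2 : X3 * 21 ≤ B 2 * 56 :=
            hy3 2 (by norm_num) (by norm_num)
          have hz3_3 : X3 ≤ B 3 := by
            have := hy3 3 (by norm_num) (by norm_num)
            exact Nat.le_of_mul_le_mul_right this (by decide +kernel)
          norm_num at hx3
          obtain ⟨X4, hx4, hy4⟩ := SM_level h 4 5 217 (by norm_num) (by norm_num)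
            (by show r 5 ≤ 217; omega) (by decide +kernel)
          have hz4_1 : X4 * 6 ≤ B 1 * 126 :=
            hy4 1 (by norm_num) (by norm_num)
          have hz4_2 : X4 * 21 ≤ B 2 * 126 :=
            hy4 2 (by norm_num) (by norm_num)
          have hz4_3 : X4 * 56 ≤ B 3 * 126 :=
            hy4 3 (by norm_num) (by norm_num)
          have hz4_4 : X4 ≤ B 4 := by
            have := hy4 4 (by norm_num) (by norm_num)
            exact Nat.le_of_mul_le_mul_right this (by decide +kernel)
          norm_num at hx4
          have hg1 : 6 * r 2 ≤ 171 * B 1 := by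
            linarith
          have hg2 : 14 * r 3 ≤ 91 * B 2 := by
            linarith
          have hg3 : 60 * r 4 ≤ 231 * B 1 + 38 * B 2 + 96 * B 3 := by
            linarith
          have hg4 : 62 * r 5 ≤ 106 * B 2 + 96 * B 4 := by
            linarith
          rcases Nat.lt_or_ge (s 1) 2 with h1 | h1
          · have h2 : s 1 = 1 := by omega
            have h3 : A 1 * (A 1 + 1) ≤ 182 :=
              Nat.mul_le_mul (by omega : A 1 ≤ 13) (by omega : A 1 + 1 ≤ 14)
            rw [h2] at *
            linarith
          · linarith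
        ·
          obtain ⟨X1, hx1, hy1⟩ := SM_level h 1 4 11 (by norm_num) (by norm_num)
            (by show r 2 ≤ 11; omega) (by decide +kernel)
          have hz1_1 : X1 ≤ B 1 := by
            have := hy1 1 (by norm_num) (by norm_num)
            exact Nat.le_of_mul_le_mul_right this (by decide +kernel)
          norm_num at hx1
          obtain ⟨X2, hx2, hy2⟩ := SM_level h 2 3 8 (by norm_num) (by norm_num)
            (by show r 3 ≤ 8; omega) (by decide +kernel)
          have hz2_1 : X2 * 4 ≤ B 1 * 10 :=
            hy2 1 (by norm_num) (by norm_num)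
          have hz2_2 : X2 ≤ B 2 := by
            have := hy2 2 (by norm_num) (by norm_num)
            exact Nat.le_of_mul_le_mul_right this (by decide +kernel)
          norm_num at hx2
          obtain ⟨X3, hx3, hy3⟩ := SM_level h 3 6 231 (by norm_num) (by norm_num)
            (by show r 4 ≤ 231; omega) (by decide +kernel)
          have hz3_1 : X3 * 7 ≤ B 1 * 84 :=
            hy3 1 (by norm_num) (by norm_num)
          have hz3_2 : X3 * 28 ≤ B 2 * 84 :=
            hy3 2 (by norm_num) (by norm_num)
          have hz3_3 : X3 ≤ B 3 := by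
            have := hy3 3 (by norm_num) (by norm_num)
            exact Nat.le_of_mul_le_mul_right this (by decide +kernel)
          norm_num at hx3
          obtain ⟨X4, hx4, hy4⟩ := SM_level h 4 5 217 (by norm_num) (by norm_num)
            (by show r 5 ≤ 217; omega) (by decide +kernel)
          have hz4_1 : X4 * 6 ≤ B 1 * 126 :=
            hy4 1 (by norm_num) (by norm_num)
          have hz4_2 : X4 * 21 ≤ B 2 * 126 :=
            hy4 2 (by norm_num) (by norm_num)
          have hz4_3 : X4 * 56 ≤ B 3 * 126 :=
            hy4 3 (by norm_num) (by norm_num)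
          have hz4_4 : X4 ≤ B 4 := by
            have := hy4 4 (by norm_num) (by norm_num)
            exact Nat.le_of_mul_le_mul_right this (by decide +kernel)
          norm_num at hx4
          have hg1 : 6 * r 2 ≤ 21 * B 1 := by
            linarith
          have hg2 : 28 * r 3 ≤ 90 * B 1 + 13 * B 2 := by
            linarith
          have hg3 : 60 * r 4 ≤ 207 * B 2 + 96 * B 3 := by
            linarith
          have hg4 : 62 * r 5 ≤ 106 * B 2 + 96 * B 4 := by
            linarith
          rcases Nat.lt_or_ge (s 1) 2 with h1 | h1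
          · have h2 : s 1 = 1 := by omega
            have h3 : A 1 * (A 1 + 1) ≤ 182 :=
              Nat.mul_le_mul (by omega : A 1 ≤ 13) (by omega : A 1 + 1 ≤ 14)
            rw [h2] at *
            linarith
          · linarith
    ·
      obtain ⟨X1, hx1, hy1⟩ := SM_level h 1 7 48 (by norm_num) (by norm_num)
        (by show r 2 ≤ 48; omega) (by decide +kernel)
      have hz1_1 : X1 ≤ B 1 := by
        have := hy1 1 (by norm_num) (by norm_num)
        exact Nat.le_of_mul_le_mul_right this (by decide +kernel)
      norm_num at hx1
      obtain ⟨X2, hx2, hy2⟩ := SM_level h 2 5 36 (by norm_num) (by norm_num)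
        (by show r 3 ≤ 36; omega) (by decide +kernel)
      have hz2_1 : X2 * 6 ≤ B 1 * 21 :=
        hy2 1 (by norm_num) (by norm_num)
      have hz2_2 : X2 ≤ B 2 := by
        have := hy2 2 (by norm_num) (by norm_num)
        exact Nat.le_of_mul_le_mul_right this (by decide +kernel)
      norm_num at hx2
      obtain ⟨X3, hx3, hy3⟩ := SM_level h 3 7 260 (by norm_num) (by norm_num)
        (by show r 4 ≤ 260; omega) (by decide +kernel)
      have hz3_1 : X3 * 8 ≤ B 1 * 120 :=
        hy3 1 (by norm_num) (by norm_num)
      have hz3_2 : X3 * 36 ≤ B 2 * 120 :=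
        hy3 2 (by norm_num) (by norm_num)
      have hz3_3 : X3 ≤ B 3 := by
        have := hy3 3 (by norm_num) (by norm_num)
        exact Nat.le_of_mul_le_mul_right this (by decide +kernel)
      norm_num at hx3
      obtain ⟨X4, hx4, hy4⟩ := SM_level h 4 3 24 (by norm_num) (by norm_num)
        (by show r 5 ≤ 24; omega) (by decide +kernel)
      have hz4_1 : X4 * 4 ≤ B 1 * 35 :=
        hy4 1 (by norm_num) (by norm_num)
      have hz4_2 : X4 * 10 ≤ B 2 * 35 :=
        hy4 2 (by norm_num) (by norm_num)
      have hz4_3 : X4 * 20 ≤ B 3 * 35 :=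
        hy4 3 (by norm_num) (by norm_num)
      have hz4_4 : X4 ≤ B 4 := by
        have := hy4 4 (by norm_num) (by norm_num)
        exact Nat.le_of_mul_le_mul_right this (by decide +kernel)
      norm_num at hx4
      have hg1 : 6 * r 2 ≤ 45 * B 1 := by
        linarith
      have hg2 : 14 * r 3 ≤ 42 * B 2 := by
        linarith
      have hg3 : 210 * r 4 ≤ 1230 * B 2 + 324 * B 3 := by
        linarith
      have hg4 : 310 * r 5 ≤ 372 * B 4 := by
        linarith
      rcases Nat.lt_or_ge (s 1) 2 with h1 | h1
      · have h2 : s 1 = 1 := by omega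
        have h3 : A 1 * (A 1 + 1) ≤ 182 :=
          Nat.mul_le_mul (by omega : A 1 ≤ 13) (by omega : A 1 + 1 ≤ 14)
        rw [h2] at *
        linarith
      · linarith
  · linarith

end KLE
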