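import Pool.Agent.KLS.Base

/-!
# The strict inequality for `m = 12`
-/

set_option autoImplicit false

namespace KLE

theorem SS_good12 (s r A B M : ℕ → ℕ) (h : Nums 12 s r A B M) (h0 : 0 < s 1) :
    GoodS 12 s r := by
  have hS := h.hS
  unfold GoodS
  simp only [show (12 - 1) / 2 = 5 from rfl, SM_sum5] at hS ⊢
  norm_num at hS ⊢
  by_cases hb : 2 * s 1 + 2 * s 2 + 2 * s 3 + 2 * s 4 + 2 * s 5 + s 6 ≤ 394
  · have hA1 := h.hA1
    have hM1 := h.hM1
    have hr1 := h.hrM 1 le_rfl (by norm_num)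
    obtain ⟨X1, hx1, hy1⟩ := SM_level h 1 20 814 (by norm_num) (by norm_num)
      (by show r 2 ≤ 814; omega) (by decide +kernel)
    have hz1_1 : X1 ≤ B 1 := by
      have := hy1 1 (by norm_num) (by norm_num)
      exact Nat.le_of_mul_le_mul_right this (by decide +kernel)
    norm_num at hx1
    obtain ⟨X2, hx2, hy2⟩ := SM_level h 2 11 610 (by norm_num) (by norm_num)
      (by show r 3 ≤ 610; omega) (by decide +kernel)
    have hz2_1 : X2 * 12 ≤ B 1 * 78 :=
      hy2 1 (by norm_num) (by norm_num)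
    have hz2_2 : X2 ≤ B 2 := by
      have := hy2 2 (by norm_num) (by norm_num)
      exact Nat.le_of_mul_le_mul_right this (by decide +kernel)
    norm_num at hx2
    obtain ⟨X3, hx3, hy3⟩ := SM_level h 3 8 488 (by norm_num) (by norm_num)
      (by show r 4 ≤ 488; omega) (by decide +kernel)
    have hz3_1 : X3 * 9 ≤ B 1 * 165 :=
      hy3 1 (by norm_num) (by norm_num)
    have hz3_2 : X3 * 45 ≤ B 2 * 165 :=
      hy3 2 (by norm_num) (by norm_num)
    have hz3_3 : X3 ≤ B 3 := by
      have := hy3 3 (by norm_num) (by norm_num)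
      exact Nat.le_of_mul_le_mul_right this (by decide +kernel)
    norm_num at hx3
    obtain ⟨X4, hx4, hy4⟩ := SM_level h 4 6 407 (by norm_num) (by norm_num)
      (by show r 5 ≤ 407; omega) (by decide +kernel)
    have hz4_1 : X4 * 7 ≤ B 1 * 210 :=
      hy4 1 (by norm_num) (by norm_num)
    have hz4_2 : X4 * 28 ≤ B 2 * 210 :=
      hy4 2 (by norm_num) (by norm_num)
    have hz4_3 : X4 * 84 ≤ B 3 * 210 :=
      hy4 3 (by norm_num) (by norm_num)
    have hz4_4 : X4 ≤ B 4 := by
      have := hy4 4 (by norm_num) (by norm_num)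
      exact Nat.le_of_mul_le_mul_right this (by decide +kernel)
    norm_num at hx4
    have hB1 := h.hBs 1 (by norm_num) (by norm_num)
    have hB2 := h.hBs 2 (by norm_num) (by norm_num)
    have hB3 := h.hBs 3 (by norm_num) (by norm_num)
    have hB4 := h.hBs 4 (by norm_num) (by norm_num)
    norm_num at hr1 hB1 hB2 hB3 hB4
    have hg1 : 6 * r 2 ≤ 253 * B 1 := by
      linarith
    have hg2 : 42 * r 3 ≤ 1169 * B 2 := by
      linarith
    have hg3 : 90 * r 4 ≤ 55 * B 2 + 336 * B 3 := by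
      linarith
    have hg4 : 62 * r 5 ≤ 160 * B 4 := by
      linarith
    rcases Nat.lt_or_ge (s 1) 2 with h1 | h1
    · have h2 : s 1 = 1 := by omega
      have h3 : A 1 * (A 1 + 1) ≤ 210 :=
        Nat.mul_le_mul (by omega : A 1 ≤ 14) (by omega : A 1 + 1 ≤ 15)
      rw [h2] at *
      linarith
    · linarith
  · linarith

end KLE
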