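import Pool.Agent.KLS.S7
import Pool.Agent.KLS.S8
import Pool.Agent.KLS.S9
import Pool.Agent.KLS.S10
import Pool.Agent.KLS.S11
import Pool.Agent.KLS.S12
import Pool.Agent.KLS.S13
import Pool.Agent.KLS.S14
import Pool.Agent.KLS.S15
import Pool.Agent.KLS.S16
import Pool.Agent.KLS.S17
import Pool.Agent.KLS.S18
import Pool.Agent.KLE.BG

/-!
# The strict inequality for `m ≥ 7`
-/

set_option autoImplicit false

open Finset

namespace KLE

/-- dimension at least nineteen -/
theorem strict_big (m : ℕ) (hm : 19 ≤ m) (s r A B M : ℕ → ℕ) (H : Nums m s r A B M) {c : ℕ}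
    (hc1 : 1 ≤ c) (hc2 : c ≤ (m - 1) / 2) (hc3 : 0 < r c) : GoodS m s r := by
  unfold GoodS
  obtain ⟨D, hD⟩ : ∃ D, D = (m - 1) / 2 := ⟨_, rfl⟩
  have hD9 : 9 ≤ D := by omega
  rw [← hD]
  have hs1 : 1 ≤ s 1 := H.hs1 c hc1 hc2 hc3
  have key := BG.real_good D hD9 m hD H hm hs1
  have a1 : ∑ c ∈ Finset.Icc 1 D, (2 ^ (c + 1) - 2) * r c + 1 ≤
      ∑ j ∈ range D, 2 ^ (j + 2) * r (j + 1) := by
    rw [BG.sum_Icc_one]
    refine Nat.succ_le_of_lt (Finset.sum_lt_sum ?_ ⟨c - 1, by rw [Finset.mem_range]; omega, ?_⟩)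
    · intro j _
      exact Nat.mul_le_mul_right _ (Nat.sub_le _ _)
    · have e1 : c - 1 + 1 = c := by omega
      have e2 : c - 1 + 2 = c + 1 := by omega
      rw [e1, e2]
      refine Nat.mul_lt_mul_of_pos_right ?_ hc3
      have : 2 ^ 1 ≤ 2 ^ (c + 1) := Nat.pow_le_pow_right (by norm_num) (by omega)
      omega
  have a2 : ((∑ j ∈ range D, 2 ^ (j + 2) * r (j + 1) : ℕ) : ℝ) ≤
      ((∑ q ∈ Finset.Icc 1 D, (2 ^ q + 2 ^ (m - q)) * s q +
        (if m % 2 = 0 then 2 ^ (m / 2) * s (m / 2) else 0) : ℕ) : ℝ) := by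
    rw [BG.sum_Icc_one]
    push_cast
    refine le_trans key (le_of_eq ?_)
    congr 1
    apply Finset.sum_congr rfl
    intro j hj
    rw [Finset.mem_range] at hj
    congr 2
    rw [div_eq_iff (by positivity), ← pow_add]
    congr 1
    omega
  exact le_trans a1 (by exact_mod_cast a2)

/-- dimension at least seven -/
theorem good_strict (m : ℕ) (hm : 7 ≤ m) (s r A B M : ℕ → ℕ) (h : Nums m s r A B M) {c : ℕ}
    (hc1 : 1 ≤ c) (hc2 : c ≤ (m - 1) / 2) (hc3 : 0 < r c) : GoodS m s r := by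
  rcases Nat.lt_or_ge m 19 with h1 | h1
  · have hs1 : 0 < s 1 := h.hs1 c hc1 hc2 hc3
    clear hc1 hc2 hc3
    interval_cases m
    · exact SS_good7 s r A B M h hs1
    · exact SS_good8 s r A B M h hs1
    · exact SS_good9 s r A B M h hs1
    · exact SS_good10 s r A B M h hs1
    · exact SS_good11 s r A B M h hs1
    · exact SS_good12 s r A B M h hs1
    · exact SS_good13 s r A B M h hs1
    · exact SS_good14 s r A B M h hs1
    · exact SS_good15 s r A B M h hs1
    · exact SS_good16 s r A B M h hs1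
    · exact SS_good17 s r A B M h hs1
    · exact SS_good18 s r A B M h hs1
  · exact strict_big m h1 s r A B M h hc1 hc2 hc3

end KLE
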