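import Pool.Agent.KLE.AR1

/-!
# The reduction with an excess
-/

set_option autoImplicit false

open scoped BigOperators RealInnerProductSpace

namespace KLE

noncomputable section

open Classical

/-- the reduction with an excess `x` -/
theorem reduceX (x d : ℕ) {ι : Type} (J : Finset ι) (a : ι → ℕ) (k s : ℕ → ℕ)
    (ha : ∀ j ∈ J, 2 * a j ≤ d) (k0 : k 0 = 0) (ksym : ∀ n ≤ d + 1, k (d + 1 - n) = k n)
    (hs : ∀ q, 1 ≤ q → 2 * q ≤ d + 1 →
      k q = s q + ∑ j ∈ J, (min (min (q - 1) (a j)) (d - (q - 1)) + 1))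
    (hG : ∑ c ∈ Finset.Icc 1 ((d + 1 - 1) / 2),
        (2 ^ (c + 1) - 2) * (J.filter (fun j => a j = c)).card + x ≤
      ∑ q ∈ Finset.Icc 1 ((d + 1 - 1) / 2), (2 ^ q + 2 ^ (d + 1 - q)) * s q +
        if (d + 1) % 2 = 0 then 2 ^ ((d + 1) / 2) * s ((d + 1) / 2) else 0) :
      ∑ j ∈ J, ∑ n ∈ Finset.range (d + 1), 2 ^ n * (min (min n (a j)) (d - n) + 1) + x ≤
        ∑ n ∈ Finset.range (d + 2), 2 ^ n * k n + J.card := by
  have hp1 : ∀ n, 2 ^ (n + 1) = 2 * 2 ^ n := fun n => by rw [pow_succ]; ring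
  obtain ⟨D, hD | hD⟩ : ∃ D, d = 2 * D ∨ d = 2 * D + 1 := ⟨d / 2, by omega⟩
  · subst hD
    have e1 : (2 * D + 1 - 1) / 2 = D := by omega
    have e2 : (2 * D + 1) % 2 ≠ 0 := by omega
    have haD : ∀ j ∈ J, a j ≤ D := fun j hj => by have := ha j hj; omega
    have hk : ∀ n ∈ Finset.range D, k (n + 1) =
        s (n + 1) + ∑ j ∈ J, (min (min n (a j)) (2 * D - n) + 1) := by
      intro n hn
      rw [Finset.mem_range] at hn
      have := hs (n + 1) (by omega) (by omega)
      simpa using this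
    simp only [e1, if_neg e2, add_zero] at hG
    rw [ar1_fib J a (fun c => 2 ^ (c + 1) - 2) D haD, ar1_icc] at hG
    have hA := ar1_A D (fun n => 2 ^ n) k k0 ksym
    have h1 : ∑ n ∈ Finset.range D, (2 ^ (n + 1) + 2 ^ (2 * D + 1 - (n + 1))) * k (n + 1) =
        ∑ n ∈ Finset.range D, (2 ^ (n + 1) + 2 ^ (2 * D + 1 - (n + 1))) * s (n + 1) +
        ∑ j ∈ J, ∑ n ∈ Finset.range D, (2 ^ (n + 1) + 2 ^ (2 * D + 1 - (n + 1))) *
          (min (min n (a j)) (2 * D - n) + 1) := by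
      rw [Finset.sum_comm, ← Finset.sum_add_distrib]
      apply Finset.sum_congr rfl
      intro n hn
      rw [hk n hn, mul_add, ← Finset.mul_sum]
    have h2 : ∑ j ∈ J, ∑ n ∈ Finset.range (2 * D + 1),
          2 ^ n * (min (min n (a j)) (2 * D - n) + 1) =
        ∑ j ∈ J, ∑ n ∈ Finset.range D, (2 ^ (n + 1) + 2 ^ (2 * D + 1 - (n + 1))) *
          (min (min n (a j)) (2 * D - n) + 1) +
        ∑ j ∈ J, (2 ^ (a j + 1) - 2) + J.card := by
      rw [Finset.card_eq_sum_ones, ← Finset.sum_add_distrib, ← Finset.sum_add_distrib]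
      exact Finset.sum_congr rfl (fun j hj => ar1_I1a D (a j) (haD j hj))
    have h3 : ∑ j ∈ J, (2 ^ (a j + 1) - 2) =
        ∑ j ∈ J.filter (fun j => 1 ≤ a j), (2 ^ (a j + 1) - 2) := by
      symm
      apply Finset.sum_subset (Finset.filter_subset _ _)
      intro j hj hj2
      have : a j = 0 := by
        by_contra h
        exact hj2 (Finset.mem_filter.2 ⟨hj, by omega⟩)
      rw [this]
      norm_num
    rw [h2, h3, hA, h1]
    omega
  · subst hD
    have e1 : (2 * D + 1 + 1 - 1) / 2 = D := by omega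
    have e2 : (2 * D + 1 + 1) % 2 = 0 := by omega
    have e3 : (2 * D + 1 + 1) / 2 = D + 1 := by omega
    have haD : ∀ j ∈ J, a j ≤ D := fun j hj => by have := ha j hj; omega
    have hk : ∀ n ∈ Finset.range D, k (n + 1) =
        s (n + 1) + ∑ j ∈ J, (min (min n (a j)) (2 * D + 1 - n) + 1) := by
      intro n hn
      rw [Finset.mem_range] at hn
      have := hs (n + 1) (by omega) (by omega)
      simpa using this
    have hkD : k (D + 1) =
        s (D + 1) + ∑ j ∈ J, (min (min D (a j)) (2 * D + 1 - D) + 1) := by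
      have := hs (D + 1) (by omega) (by omega)
      simpa using this
    simp only [e1, if_pos e2, e3] at hG
    rw [ar1_fib J a (fun c => 2 ^ (c + 1) - 2) D haD, ar1_icc] at hG
    have hA := ar1_B D (fun n => 2 ^ n) k k0 ksym
    have h1 : ∑ n ∈ Finset.range D, (2 ^ (n + 1) + 2 ^ (2 * D + 2 - (n + 1))) * k (n + 1) =
        ∑ n ∈ Finset.range D, (2 ^ (n + 1) + 2 ^ (2 * D + 2 - (n + 1))) * s (n + 1) +
        ∑ j ∈ J, ∑ n ∈ Finset.range D, (2 ^ (n + 1) + 2 ^ (2 * D + 2 - (n + 1))) *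
          (min (min n (a j)) (2 * D + 1 - n) + 1) := by
      rw [Finset.sum_comm, ← Finset.sum_add_distrib]
      apply Finset.sum_congr rfl
      intro n hn
      rw [hk n hn, mul_add, ← Finset.mul_sum]
    have h2 : ∑ j ∈ J, ∑ n ∈ Finset.range (2 * D + 2),
          2 ^ n * (min (min n (a j)) (2 * D + 1 - n) + 1) =
        ∑ j ∈ J, ∑ n ∈ Finset.range D, (2 ^ (n + 1) + 2 ^ (2 * D + 2 - (n + 1))) *
          (min (min n (a j)) (2 * D + 1 - n) + 1) +
        ∑ j ∈ J, 2 ^ (D + 1) * (min (min D (a j)) (2 * D + 1 - D) + 1) +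
        ∑ j ∈ J, (2 ^ (a j + 1) - 2) + J.card := by
      rw [Finset.card_eq_sum_ones, ← Finset.sum_add_distrib, ← Finset.sum_add_distrib,
        ← Finset.sum_add_distrib]
      exact Finset.sum_congr rfl (fun j hj => ar1_I1b D (a j) (haD j hj))
    have h3 : ∑ j ∈ J, (2 ^ (a j + 1) - 2) =
        ∑ j ∈ J.filter (fun j => 1 ≤ a j), (2 ^ (a j + 1) - 2) := by
      symm
      apply Finset.sum_subset (Finset.filter_subset _ _)
      intro j hj hj2
      have : a j = 0 := by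
        by_contra h
        exact hj2 (Finset.mem_filter.2 ⟨hj, by omega⟩)
      rw [this]
      norm_num
    have h6 : 2 ^ (D + 1) * k (D + 1) = 2 ^ (D + 1) * s (D + 1) +
        ∑ j ∈ J, 2 ^ (D + 1) * (min (min D (a j)) (2 * D + 1 - D) + 1) := by
      rw [hkD, mul_add, Finset.mul_sum]
    have e4 : 2 * D + 1 + 2 = 2 * D + 3 := by ring
    have e5 : 2 * D + 1 + 1 = 2 * D + 2 := by ring
    rw [e4, hA, h1, h6]
    rw [e5, h2, h3]
    rw [e5] at hG
    omega

end

end KLE
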