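import Pool.Agent.KLE.Main
import Pool.Agent.KLS.Lt
import Pool.Agent.KLS.Red

/-!
# The equality case for families of caps
-/

set_option autoImplicit false

open scoped BigOperators RealInnerProductSpace

namespace KLE

noncomputable section

open Classical

open Pool.Agent.KST (E IsCell Cells Verts Simple Pol pt PP Gen Star VF Low LowF hh Fn FF Ker
  Par Le sgn supp EE X D)
open WLP (SepB HypB Data)

/-- the equality case: few facets -/
theorem mainE_eq {ι : Type} [Fintype ι] {d : ℕ} (hd : 7 ≤ d + 1) {b : ι → E (d + 1)}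
    (hS : Simple b) (hb : Bornology.IsBounded (Pol b)) {J : Finset ι} (hJ : SepB b J)
    {K : ι → CapD ι} (hF : Fam b J K)
    (hle : (Cells b).card + 2 * J.card ≤
      3 ^ (d + 1) + 2 * ∑ j ∈ J, ((Cells b).filter (fun s => s j = 1)).card) :
    (Finset.univ.filter (fun l => l ∉ J ∧ ∃ t ∈ Cells b, t l = 1)).card ≤ d + 1 := by
  have dat : DataE b J := dataE hS hb hJ hF.ne
  have haD : ∀ j ∈ J, 2 * (K j).a ≤ d := fun j hj => (hF.cap j hj).haD
  have hst : ∀ j ∈ J, ∀ n ≤ d, st b j n = min (min n (K j).a) (d - n) + 1 :=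
    fun j hj => ma_st hS hF dat hj
  -- the numbers s
  obtain ⟨s, hs, hsp⟩ : ∃ s : ℕ → ℕ, (∀ q, 1 ≤ q → 2 * q ≤ d + 1 →
      kap b q = s q + ∑ j ∈ J, (min (min (q - 1) (K j).a) (d - (q - 1)) + 1)) ∧
      ∀ q, 1 ≤ q → 2 * q ≤ d + 1 → sp b J q ≤ s q := by
    refine ⟨fun q => kap b q - ∑ j ∈ J, (min (min (q - 1) (K j).a) (d - (q - 1)) + 1),
      fun q h1 h2 => ?_, fun q h1 h2 => ?_⟩
    · have h := ma_kap hS hJ hF dat h1 h2
      show kap b q = kap b q - ∑ j ∈ J, (min (min (q - 1) (K j).a) (d - (q - 1)) + 1) +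
        ∑ j ∈ J, (min (min (q - 1) (K j).a) (d - (q - 1)) + 1)
      omega
    · have h := ma_kap hS hJ hF dat h1 h2
      show sp b J q ≤ kap b q - ∑ j ∈ J, (min (min (q - 1) (K j).a) (d - (q - 1)) + 1)
      omega
  have hverts : 2 * ∑ j ∈ J, ((K j).a + 1) * (d + 1 - (K j).a) ≤
      2 ^ (d + 1) + 2 * ∑ n ∈ Finset.range (d + 2), kap b n := by
    have h := dat.verts
    have h1 : ∑ j ∈ J, (VF b j).card = ∑ j ∈ J, ((K j).a + 1) * (d + 1 - (K j).a) :=
      Finset.sum_congr rfl (fun j hj => card_VF (hF.cap j hj))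
    rw [h1] at h
    exact h
  obtain ⟨hS1, -⟩ := reduce d J (fun j => (K j).a) (kap b) s haD dat.k0 dat.ksym hs hverts
  -- the numbers of the proof
  have hN : Nums (d + 1) s (fun c => (J.filter (fun j => (K j).a = c)).card)
      (fun c => hf K (TT J K c) c) (fun c => hf K (TT J K (c + 1)) c)
      (fun c => hf K (TT J K c) (c + 1)) := by
    refine
      { hs1 := ?_
        hBs := ?_
        hBA := ?_
        hA1 := ?_
        hM1 := hf_two K _
        hA2 := fun _ => hf_two K _
        hgA := fun c z h1 _ h3 => hf_growth K _ c z h1 h3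
        hgM := fun c z h1 _ h3 => hf_growth K _ c z h1 h3
        hrM := ?_
        hS := hS1 }
    · intro c h1 h2 h3
      obtain ⟨j, hj⟩ := Finset.card_pos.mp h3
      rw [Finset.mem_filter] at hj
      exact le_trans (sp_one_pos hS hF hj.1 (by rw [hj.2]; exact h1))
        (hsp 1 le_rfl (by omega))
    · intro c h1 h2
      show hf K (TT J K (c + 1)) c ≤ s c + s (c + 1)
      have h3 : ∀ j ∈ TT J K (c + 1), ∃ l, (K j).σ l ≠ 0 ∧ (K j).lam l ≠ 0 := by
        intro j hj
        have hjJ : j ∈ J := (Finset.mem_filter.mp hj).1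
        have hc := hF.cap j hjJ
        have h4 : (supp (K j).σ).Nonempty := by
          rw [← Finset.card_pos, hc.hcard]
          omega
        obtain ⟨l, hl⟩ := h4
        have h5 : (K j).σ l ≠ 0 := by
          simpa [Pool.Agent.KST.supp] using hl
        exact ⟨l, h5, (hc.hlam l).mpr h5⟩
      have h4 := hf_le_odd K (TT J K (c + 1)) c h3
      have h5 := odd_le_sp hS hF (c := c + 1) (q := c) (by omega)
      have h6 := odd_le_sp hS hF (c := c + 1) (q := c + 1) le_rfl
      have h7 := hsp c h1 (by omega)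
      have h8 := hsp (c + 1) (by omega) (by omega)
      omega
    · intro c h1 h2
      refine hf_mono K ?_ c
      intro j hj
      rw [TT, Finset.mem_filter] at hj ⊢
      exact ⟨hj.1, by omega⟩
    · show hf K (TT J K 1) 1 ≤ (d + 1) + 2 * s 1
      rcases Nat.eq_zero_or_pos d with h0 | h0
      · have h1 : TT J K 1 = ∅ := by
          rw [Finset.eq_empty_iff_forall_notMem]
          intro j hj
          rw [TT, Finset.mem_filter] at hj
          have h2 := haD j hj.1
          omega
        rw [h1, ma_hf_empty]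
        exact Nat.zero_le _
      · have h1 := hf_one_le hS hF
        have h2 := dat.fac
        have h3 := hs 1 le_rfl (by omega)
        have h4 := hsp 1 le_rfl (by omega)
        have h5 : ∑ j ∈ J, (min (min (1 - 1) (K j).a) (d - (1 - 1)) + 1) = J.card := by
          simp
        rw [h5] at h3
        omega
    · intro c h1 h2
      refine hf_sep hF c (T := TT J K c) (T' := J.filter (fun j => (K j).a = c))
        (Finset.filter_subset _ _) ?_ ?_
      · intro j hj
        rw [Finset.mem_filter] at hj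
        rw [TT, Finset.mem_filter]
        exact ⟨hj.1, by omega⟩
      · intro j hj
        exact (Finset.mem_filter.mp hj).2
  have hfac : ∑ j ∈ J, ((Cells b).filter (fun s => s j = 1)).card =
      ∑ j ∈ J, ∑ n ∈ Finset.range (d + 1), 2 ^ n * (min (min n (K j).a) (d - n) + 1) := by
    refine Finset.sum_congr rfl (fun j hj => ?_)
    rw [dat.facets j hj]
    refine Finset.sum_congr rfl (fun n hn => ?_)
    rw [hst j hj n (by have := Finset.mem_range.mp hn; omega)]
  rw [hfac, dat.cells] at hle
  by_cases hz : ∀ j ∈ J, (K j).a = 0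
  · -- no proper circuit
    have hr0 : ∑ c ∈ Finset.Icc 1 ((d + 1 - 1) / 2),
        (2 ^ (c + 1) - 2) * (J.filter (fun j => (K j).a = c)).card = 0 := by
      refine Finset.sum_eq_zero fun c hc => ?_
      rw [Finset.mem_Icc] at hc
      rw [Finset.filter_false_of_mem, Finset.card_empty, mul_zero]
      intro j hj h
      have := hz j hj
      omega
    have h1 : s 1 ≤ ∑ q ∈ Finset.Icc 1 ((d + 1 - 1) / 2), (2 ^ q + 2 ^ (d + 1 - q)) * s q := by
      refine le_trans ?_ (Finset.single_le_sum (f := fun q => (2 ^ q + 2 ^ (d + 1 - q)) * s q)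
        (fun _ _ => Nat.zero_le _) (Finset.mem_Icc.2 ⟨le_rfl, by omega⟩))
      exact Nat.le_mul_of_pos_left _ (by positivity)
    have h2 := reduceX (s 1) d J (fun j => (K j).a) (kap b) s haD dat.k0 dat.ksym hs (by
      rw [hr0]
      omega)
    have h3 : s 1 = 0 := by omega
    have h4 := hs 1 le_rfl (by omega)
    have h5 : ∑ j ∈ J, (min (min (1 - 1) (K j).a) (d - (1 - 1)) + 1) = J.card := by
      simp
    have h6 := dat.fac
    omega
  · -- a proper circuit
    exfalso
    push Not at hz
    obtain ⟨j, hj, hj0⟩ := hz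
    have h1 : GoodS (d + 1) s (fun c => (J.filter (fun j => (K j).a = c)).card) :=
      good_strict (d + 1) hd s _ _ _ _ hN (c := (K j).a) (by omega)
        (by have := haD j hj; omega) (Finset.card_pos.2 ⟨j, Finset.mem_filter.2 ⟨hj, rfl⟩⟩)
    have h2 := reduceX 1 d J (fun j => (K j).a) (kap b) s haD dat.k0 dat.ksym hs h1
    omega

end

end KLE
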