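import Pool.Agent.KLS.Base

/-!
# The strict inequality for `m = 7`
-/

set_option autoImplicit false

namespace KLE

/-- the check for `m = 7` -/
def SSk7 (s1 s2 s3 : ℕ) : Bool :=
  decide (7 * (64 + 2 * s1 + 2 * s2 + 2 * s3) < 2 * (66 * s1 + 36 * s2 + 24 * s3)) ||
  decide (2 * (64 + 2 * s1 + 2 * s2 + 2 * s3) + 6 * (SMg 3 (SMA3 7 s1 s2 s3) / 2) < 1 * (66 * s1 + 36 * s2 + 24 * s3)) ||
  decide (1 * (64 + 2 * s1 + 2 * s2 + 2 * s3) + 3 * (SMg 2 (SMA2 7 s1 s2) / 2) + 10 * (SMg 3 (SMA3 7 s1 s2 s3) / 2) < 1 * (66 * s1 + 36 * s2 + 24 * s3)) ||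
  decide (2 * (SMg 1 (7 + 2 * s1) / 2) + 6 * (SMg 2 (SMA2 7 s1 s2) / 2) + 14 * (SMg 3 (SMA3 7 s1 s2 s3) / 2) < 1 * (66 * s1 + 36 * s2 + 24 * s3))

theorem SS_key7 : ∀ a < 4, ∀ b < (448 - 118 * (a + 1)) / 58 + 1, ∀ c < (448 - 118 * (a + 1) - 58 * b) / 34 + 1,
    SSk7 (a + 1) b c = true := by decide +kernel

theorem SS_good7 (s r A B M : ℕ → ℕ) (h : Nums 7 s r A B M) (h0 : 0 < s 1) :
    GoodS 7 s r := by
  have hS := h.hS
  unfold GoodS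
  simp only [show (7 - 1) / 2 = 3 from rfl, SM_sum3] at hS ⊢
  norm_num at hS ⊢
  by_cases hb : 448 < 118 * s 1 + 58 * s 2 + 34 * s 3
  · omega
  · have key := SS_key7 (s 1 - 1) (by omega) (s 2) (by omega) (s 3) (by omega)
    rw [Nat.sub_add_cancel h0] at key
    simp only [SSk7, Bool.or_eq_true, decide_eq_true_eq] at key
    have hr1 := SM_R1 h (by norm_num)
    have hr2 := SM_R2 h (by norm_num)
    have hr3 := SM_R3 h (by norm_num)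
    omega

end KLE
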